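import Pool.Agent.H33.HH.TA

/-! Row IDC of hha_modules: smooth sums over the ideals prime to the small primes. -/

set_option autoImplicit false

open NumberField Complex Filter Topology MeasureTheory
open scoped ContDiff nonZeroDivisors

namespace Pool.Agent.H44.HH

open Pool.Agent.H33.HH Pool.Agent.H28.RC Pool.Agent.H37.CV

section ideals

variable {K : Type} [Field K] [NumberField K]

theorem fin_np (P : ℝ) : {p : PrI K | np p ≤ P}.Finite := by
  have h := Ideal.finite_setOfPred_absNorm_le (S := 𝓞 K) ⌊P⌋₊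
  refine Set.Finite.of_finite_image (f := Subtype.val) (h.subset ?_) Subtype.val_injective.injOn
  rintro _ ⟨p, hp, rfl⟩
  exact Nat.le_floor hp

theorem fin_NI (x : ℝ) : {l : NI K | nm l.1 ≤ x}.Finite := by
  have h := Ideal.finite_setOfPred_absNorm_le (S := 𝓞 K) ⌊x⌋₊
  refine Set.Finite.of_finite_image (f := Subtype.val) (h.subset ?_) Subtype.val_injective.injOn
  rintro _ ⟨p, hp, rfl⟩
  exact Nat.le_floor hp

theorem mem_SP (P : ℝ) (p : PrI K) : p ∈ SP K P ↔ np p ≤ P := by
  unfold SP PM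
  rw [dif_pos (fin_np P), Set.Finite.mem_toFinset]
  rfl

theorem Cp_iff (P : ℝ) (I : Ideal (𝓞 K)) : Cp P I ↔ ∀ p ∈ SP K P, ¬ I ≤ p.1 := by
  constructor
  · intro h p hp hI
    have h1 := h p hI
    rw [mem_SP] at hp
    linarith
  · intro h p hI
    by_contra hn
    exact h p ((mem_SP P p).2 (not_lt.1 hn)) hI

theorem pr_coprime {p q : PrI K} (h : p ≠ q) : IsCoprime p.1 q.1 := by
  rw [Ideal.isCoprime_iff_sup_eq]
  have hp : p.1.IsMaximal := p.2.1.isMaximal p.2.2
  have hq : q.1.IsMaximal := q.2.1.isMaximal q.2.2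
  exact hp.coprime_of_ne hq fun e => h (Subtype.ext e)

theorem idS_le (A : Finset (PrI K)) (I : Ideal (𝓞 K)) : I ≤ idS A ↔ ∀ p ∈ A, I ≤ p.1 := by
  classical
  constructor
  · intro h p hp
    refine h.trans (Ideal.le_of_dvd ?_)
    exact Finset.dvd_prod_of_mem (fun p : PrI K => p.1) hp
  · intro h
    rw [← Ideal.dvd_iff_le]
    induction A using Finset.induction_on with
    | empty => exact one_dvd _
    | insert p A hp ih =>
      unfold idS
      rw [Finset.prod_insert hp]
      refine IsCoprime.mul_dvd ?_ ?_ ?_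
      · refine IsCoprime.prod_right fun q hq => pr_coprime ?_
        rintro rfl
        exact hp hq
      · rw [Ideal.dvd_iff_le]
        exact h p (Finset.mem_insert_self _ _)
      · exact ih fun q hq => h q (Finset.mem_insert_of_mem hq)

theorem np_ge_one (p : PrI K) : 1 ≤ np p := by
  unfold np nm
  have h : Ideal.absNorm p.1 ≠ 0 := fun h => p.2.2 (Ideal.absNorm_eq_zero_iff.1 h)
  exact_mod_cast Nat.one_le_iff_ne_zero.2 h

theorem nm_idS (A : Finset (PrI K)) (l : Ideal (𝓞 K)) : nm (idS A * l) = nS np A * nm l := by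
  unfold nm idS nS np nm
  rw [map_mul, map_prod]
  push_cast
  rfl

theorem nS_one_le (A : Finset (PrI K)) : 1 ≤ nS np A := by
  unfold nS
  calc (1 : ℝ) = ∏ p ∈ A, 1 := by simp
    _ ≤ ∏ p ∈ A, np p := Finset.prod_le_prod (fun _ _ => zero_le_one) fun p _ => np_ge_one p

theorem nS_mono {A B : Finset (PrI K)} (h : A ⊆ B) : nS np A ≤ nS np B := by
  classical
  unfold nS
  rw [← Finset.prod_sdiff h]
  refine le_mul_of_one_le_left (zero_le_one.trans (nS_one_le A)) (nS_one_le (B \ A))

theorem idS_ne (A : Finset (PrI K)) : idS A ≠ ⊥ := by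
  have h : idS A ≠ 0 := Finset.prod_ne_zero_iff.2 fun p _ => p.2.2
  exact h

/-- inclusion and exclusion -/
theorem incl (S : Finset (PrI K)) (X : PrI K → Prop) [DecidablePred X]
    [Decidable (∀ p ∈ S, ¬ X p)] (d : ∀ A : Finset (PrI K), Decidable (∀ p ∈ A, X p)) :
    (if ∀ p ∈ S, ¬ X p then (1 : ℝ) else 0) =
      ∑ A ∈ S.powerset, (-1) ^ A.card * (if ∀ p ∈ A, X p then 1 else 0) := by
  have h1 := Finset.prod_one_add (f := fun p => if X p then (-1 : ℝ) else 0) S
  have h2 : ∏ p ∈ S, (1 + if X p then (-1 : ℝ) else 0) = if ∀ p ∈ S, ¬ X p then 1 else 0 := by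
    by_cases h : ∀ p ∈ S, ¬ X p
    · rw [if_pos h]
      refine Finset.prod_eq_one fun p hp => ?_
      rw [if_neg (h p hp), add_zero]
    · rw [if_neg h]
      push Not at h
      obtain ⟨p, hp, hX⟩ := h
      refine Finset.prod_eq_zero hp ?_
      rw [if_pos hX]
      norm_num
  rw [← h2, h1]
  refine Finset.sum_congr rfl fun A _ => ?_
  by_cases h : ∀ p ∈ A, X p
  · rw [if_pos h, mul_one, ← Finset.prod_const]
    exact Finset.prod_congr rfl fun p hp => if_pos (h p hp)
  · rw [if_neg h, mul_zero]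
    push Not at h
    obtain ⟨p, hp, hX⟩ := h
    exact Finset.prod_eq_zero hp (if_neg hX)

end ideals

open scoped Classical in
theorem sumC_eq {K : Type} [Field K] [NumberField K] (P b T : ℝ) (hT : 0 < T) (f : ℝ → ℝ)
    (hf : ∀ u, b ≤ u → f u = 0) :
    sumC (K := K) P (fun n => f (nm n / T)) = ∑ A ∈ (SP K P).powerset, (-1) ^ A.card *
      ∑' l : NI K, f (nm l.1 / (T / nS np A)) := by
  have hfin : ∀ A : Finset (PrI K),
      (Function.support fun I : NI K => if I.1 ≤ idS A then f (nm I.1 / T) else 0).Finite := by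
    intro A
    refine (fin_NI (K := K) (b * T)).subset fun I hI => ?_
    show nm I.1 ≤ b * T
    by_contra h
    push Not at h
    refine hI ?_
    have h1 : b ≤ nm I.1 / T := by
      rw [le_div_iff₀ hT]
      exact h.le
    simp only [hf _ h1, ite_self]
  have h1 : ∀ I : NI K, (if Cp P I.1 then f (nm I.1 / T) else 0) =
      ∑ A ∈ (SP K P).powerset, (-1) ^ A.card * (if I.1 ≤ idS A then f (nm I.1 / T) else 0) := by
    intro I
    have h2 := incl (SP K P) (fun p => I.1 ≤ p.1) (fun A => Classical.dec _)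
    have h3 : (if Cp P I.1 then f (nm I.1 / T) else 0) =
        (if ∀ p ∈ SP K P, ¬ I.1 ≤ p.1 then (1 : ℝ) else 0) * f (nm I.1 / T) := by
      by_cases h : Cp P I.1
      · rw [if_pos h, if_pos ((Cp_iff P I.1).1 h), one_mul]
      · rw [if_neg h, if_neg fun h' => h ((Cp_iff P I.1).2 h'), zero_mul]
    rw [h3, h2, Finset.sum_mul]
    refine Finset.sum_congr rfl fun A _ => ?_
    rw [mul_assoc]
    congr 1
    by_cases h : I.1 ≤ idS A
    · rw [if_pos h, if_pos ((idS_le A I.1).1 h), one_mul]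
    · rw [if_neg h, if_neg fun h' => h ((idS_le A I.1).2 h'), zero_mul]
  unfold sumC
  simp only [h1]
  rw [Summable.tsum_finsetSum fun A _ =>
    (summable_of_hasFiniteSupport (hfin A)).mul_left _]
  refine Finset.sum_congr rfl fun A _ => ?_
  rw [tsum_mul_left]
  congr 1
  let φ : NI K → NI K := fun l => ⟨idS A * l.1, mul_ne_zero (idS_ne A) l.2⟩
  have hφ : Function.Injective φ := by
    intro l l' h
    have h2 : idS A * l.1 = idS A * l'.1 := congrArg Subtype.val h
    exact Subtype.ext (mul_left_cancel₀ (idS_ne A) h2)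
  rw [← hφ.tsum_eq]
  · refine tsum_congr fun l => ?_
    show (if idS A * l.1 ≤ idS A then f (nm (idS A * l.1) / T) else 0) = _
    rw [if_pos Ideal.mul_le_left, nm_idS]
    congr 1
    have := nS_one_le (K := K) A
    field_simp
  · intro I hI
    have h2 : I.1 ≤ idS A := by
      by_contra h
      exact hI (if_neg h)
    obtain ⟨l, hl⟩ := Ideal.dvd_iff_le.2 h2
    refine ⟨⟨l, ?_⟩, Subtype.ext hl.symm⟩
    rintro rfl
    have h3 : I.1 = 0 := by
      rw [hl]
      exact mul_zero _
    exact I.2 h3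

theorem pf_IDC (h : T_IDS) : T_IDC := by
  intro K _ _ _ P b k hSP hk hb
  obtain ⟨C0, hC0, hids⟩ := h K k b hk hb
  classical
  obtain ⟨e, he⟩ : ∃ e : ℝ, e = (k : ℝ) / 2 - 1 := ⟨_, rfl⟩
  have he0 : 0 ≤ e := by
    have : (2 : ℝ) ≤ k := by exact_mod_cast hk
    rw [he]
    linarith
  have hne : 1 - (k : ℝ) / 2 = -e := by rw [he]; ring
  obtain ⟨N, hN⟩ : ∃ N : ℝ, N = nS np (SP K P) := ⟨_, rfl⟩
  have hN1 : 1 ≤ N := by rw [hN]; exact nS_one_le _
  obtain ⟨nb, hnb⟩ : ∃ nb : ℝ, nb = ((fin_NI (K := K) b).toFinset.card : ℝ) := ⟨_, rfl⟩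
  obtain ⟨κ, hκ⟩ : ∃ κ : ℝ, κ = hc K / wu K := ⟨_, rfl⟩
  obtain ⟨D, hD⟩ : ∃ D : ℝ, D = nb + |rh K| * b + |κ| := ⟨_, rfl⟩
  have hnb0 : 0 ≤ nb := by rw [hnb]; positivity
  have hD0 : 0 ≤ D := by rw [hD]; positivity
  refine ⟨2 ^ (SP K P).card * ((C0 + D) * N ^ e), by positivity, ?_⟩
  intro f M T hf hfb hfM hT
  have hT0 : 0 < T := by linarith
  have hf0 : ∀ u ∈ Set.Icc 0 b, |f u| ≤ M := by
    intro u hu
    have h1 := hfM 0 (Nat.zero_le _) u hu
    rw [iteratedDeriv_zero] at h1
    exact h1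
  have hM0 : 0 ≤ M := (abs_nonneg _).trans (hf0 0 ⟨le_rfl, hb.le⟩)
  obtain ⟨J, hJ⟩ : ∃ J : ℝ, J = ∫ u in Set.Ioi (0 : ℝ), f u := ⟨_, rfl⟩
  have hJb : |J| ≤ M * b := by
    have h1 : J = ∫ u in Set.Ioc (0 : ℝ) b, f u := by
      rw [hJ]
      refine setIntegral_eq_of_subset_of_forall_sdiff_eq_zero measurableSet_Ioi
        Set.Ioc_subset_Ioi_self fun u hu => ?_
      refine hfb u ?_
      by_contra h2
      exact hu.2 ⟨hu.1, (not_le.1 h2).le⟩
    rw [h1]
    have h2 := norm_setIntegral_le_of_norm_le_const (μ := volume) (s := Set.Ioc (0 : ℝ) b)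
      (f := f) (C := M) measure_Ioc_lt_top fun u hu => hf0 u ⟨hu.1.le, hu.2⟩
    rw [Real.norm_eq_abs] at h2
    refine h2.trans (le_of_eq ?_)
    rw [Real.volume_real_Ioc_of_le hb.le, sub_zero]
  have hTe : 0 < T ^ (-e) := Real.rpow_pos_of_pos hT0 _
  -- the terms
  have key : ∀ A ∈ (SP K P).powerset,
      |(∑' l : NI K, f (nm l.1 / (T / nS np A))) - rh K * (T / nS np A) * J + κ * f 0| ≤
        (C0 + D) * N ^ e * (M * T ^ (-e)) := by
    intro A hA
    have hA1 := nS_one_le (K := K) A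
    have hA0 : 0 < nS np A := by linarith
    have hAN : nS np A ≤ N := by
      rw [hN]
      exact nS_mono (Finset.mem_powerset.1 hA)
    have hNe : 0 ≤ N ^ e := Real.rpow_nonneg (by linarith) _
    by_cases ht : 1 ≤ T / nS np A
    · have h1 := hids f M (T / nS np A) hf hfb hfM ht
      rw [← hJ, ← hκ, hne] at h1
      refine h1.trans ?_
      have h2 : (T / nS np A) ^ (-e) ≤ T ^ (-e) * N ^ e := by
        rw [Real.div_rpow hT0.le hA0.le, Real.rpow_neg hA0.le, div_inv_eq_mul]
        exact mul_le_mul_of_nonneg_left (Real.rpow_le_rpow hA0.le hAN he0) hTe.le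
      calc C0 * M * (T / nS np A) ^ (-e) ≤ C0 * M * (T ^ (-e) * N ^ e) :=
            mul_le_mul_of_nonneg_left h2 (mul_nonneg hC0 hM0)
        _ = C0 * (N ^ e * (M * T ^ (-e))) := by ring
        _ ≤ (C0 + D) * (N ^ e * (M * T ^ (-e))) :=
            mul_le_mul_of_nonneg_right (by linarith) (by positivity)
        _ = _ := by ring
    · push Not at ht
      have ht0 : 0 < T / nS np A := by positivity
      have hS : |∑' l : NI K, f (nm l.1 / (T / nS np A))| ≤ nb * M := by
        rw [tsum_eq_sum (s := (fin_NI (K := K) b).toFinset)]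
        · refine (Finset.abs_sum_le_sum_abs _ _).trans ?_
          rw [hnb, ← nsmul_eq_mul]
          refine Finset.sum_le_card_nsmul _ _ _ fun l _ => ?_
          by_cases hlb : nm l.1 / (T / nS np A) ≤ b
          · refine hf0 _ ⟨?_, hlb⟩
            unfold nm
            positivity
          · rw [hfb _ (not_le.1 hlb).le, abs_zero]
            exact hM0
        · intro l hl
          refine hfb _ ?_
          rw [Set.Finite.mem_toFinset] at hl
          have h2 : b < nm l.1 := not_le.1 hl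
          rw [le_div_iff₀ ht0]
          nlinarith
      have h3 : 1 ≤ N ^ e * T ^ (-e) := by
        have h4 : T ≤ N := by
          rw [div_lt_one hA0] at ht
          linarith
        rw [Real.rpow_neg hT0.le, ← div_eq_mul_inv, le_div_iff₀ (Real.rpow_pos_of_pos hT0 _),
          one_mul]
        exact Real.rpow_le_rpow hT0.le h4 he0
      have h5 : |(∑' l : NI K, f (nm l.1 / (T / nS np A))) - rh K * (T / nS np A) * J + κ * f 0| ≤
          D * M := by
        have h6 : |rh K * (T / nS np A) * J| ≤ |rh K| * b * M := by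
          rw [abs_mul, abs_mul, abs_of_pos ht0]
          calc |rh K| * (T / nS np A) * |J| ≤ |rh K| * 1 * (M * b) := by
                gcongr
            _ = _ := by ring
        have h7 : |κ * f 0| ≤ |κ| * M := by
          rw [abs_mul]
          exact mul_le_mul_of_nonneg_left (hf0 0 ⟨le_rfl, hb.le⟩) (abs_nonneg _)
        calc _ ≤ |(∑' l : NI K, f (nm l.1 / (T / nS np A))) - rh K * (T / nS np A) * J| +
              |κ * f 0| := abs_add_le _ _
          _ ≤ |∑' l : NI K, f (nm l.1 / (T / nS np A))| + |rh K * (T / nS np A) * J| +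
              |κ * f 0| := by
              gcongr
              exact abs_sub _ _
          _ ≤ nb * M + |rh K| * b * M + |κ| * M := by gcongr
          _ = D * M := by rw [hD]; ring
      refine h5.trans ?_
      calc D * M = (D * M) * 1 := by ring
        _ ≤ (D * M) * (N ^ e * T ^ (-e)) :=
            mul_le_mul_of_nonneg_left h3 (mul_nonneg hD0 hM0)
        _ = D * (N ^ e * (M * T ^ (-e))) := by ring
        _ ≤ (C0 + D) * (N ^ e * (M * T ^ (-e))) :=
            mul_le_mul_of_nonneg_right (by linarith) (by positivity)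
        _ = _ := by ring
  -- the main terms
  have m1 : ∑ A ∈ (SP K P).powerset, (-1 : ℝ) ^ A.card * (nS np A)⁻¹ =
      ∏ p ∈ SP K P, (1 - 1 / np p) := by
    have h1 := Finset.prod_one_add (f := fun p : PrI K => -(1 / np p)) (SP K P)
    have h2 : ∏ p ∈ SP K P, (1 - 1 / np p) = ∏ p ∈ SP K P, (1 + -(1 / np p)) :=
      Finset.prod_congr rfl fun p _ => by ring
    rw [h2, h1]
    refine Finset.sum_congr rfl fun A _ => ?_
    unfold nS
    rw [← Finset.prod_inv_distrib, ← Finset.prod_const, ← Finset.prod_mul_distrib]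
    refine Finset.prod_congr rfl fun p _ => ?_
    rw [one_div]
    ring
  have m2 : ∑ A ∈ (SP K P).powerset, (-1 : ℝ) ^ A.card = 0 := by
    have h1 := Finset.prod_one_add (f := fun _ : PrI K => (-1 : ℝ)) (SP K P)
    obtain ⟨p, hp⟩ := hSP
    have h2 : ∏ p ∈ SP K P, (1 + (-1 : ℝ)) = 0 := Finset.prod_eq_zero hp (by norm_num)
    rw [h2] at h1
    rw [h1]
    refine Finset.sum_congr rfl fun A _ => ?_
    rw [Finset.prod_const]
  have hsum := sumC_eq (K := K) P b T hT0 f hfb
  have hfin : sumC (K := K) P (fun n => f (nm n / T)) - rk K P * T * J =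
      ∑ A ∈ (SP K P).powerset, (-1 : ℝ) ^ A.card *
        ((∑' l : NI K, f (nm l.1 / (T / nS np A))) - rh K * (T / nS np A) * J + κ * f 0) := by
    have h1 : ∀ A ∈ (SP K P).powerset, (-1 : ℝ) ^ A.card *
        ((∑' l : NI K, f (nm l.1 / (T / nS np A))) - rh K * (T / nS np A) * J + κ * f 0) =
        (-1 : ℝ) ^ A.card * (∑' l : NI K, f (nm l.1 / (T / nS np A))) -
          rh K * T * J * ((-1 : ℝ) ^ A.card * (nS np A)⁻¹) + κ * f 0 * (-1 : ℝ) ^ A.card := by
      intro A _
      rw [div_eq_mul_inv]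
      ring
    rw [Finset.sum_congr rfl h1, Finset.sum_add_distrib, Finset.sum_sub_distrib,
      ← Finset.mul_sum, ← Finset.mul_sum, m1, m2, ← hsum]
    unfold rk
    ring
  rw [← hJ, hfin, hne]
  refine (Finset.abs_sum_le_sum_abs _ _).trans ?_
  calc ∑ A ∈ (SP K P).powerset, |(-1 : ℝ) ^ A.card *
        ((∑' l : NI K, f (nm l.1 / (T / nS np A))) - rh K * (T / nS np A) * J + κ * f 0)|
      ≤ ∑ A ∈ (SP K P).powerset, (C0 + D) * N ^ e * (M * T ^ (-e)) := by
        refine Finset.sum_le_sum fun A hA => ?_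
        rw [abs_mul, abs_pow, abs_neg, abs_one, one_pow, one_mul]
        exact key A hA
    _ = _ := by
        rw [Finset.sum_const, Finset.card_powerset, nsmul_eq_mul]
        push_cast
        ring

end Pool.Agent.H44.HH
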